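import Pool.Agent.Work.MP_b29d7f_ns.Interface3

/-!
# Block LOW: lower bound for the energy of all finite sets
-/

set_option autoImplicit false

open Finset Filter Topology MeasureTheory NumberField IsDedekindDomain

namespace Pool.NS

open Pool.Agent.Work.MP_b29d7f_nt.Ded

namespace LOW_

section

variable {R : Type} [CommRing R] [IsDedekindDomain R] [Ring.HasFiniteQuotients R] [Infinite R]

open scoped Classical in
omit [IsDedekindDomain R] [Infinite R] in
/-- the number of pairs of elements of `B` in the same class modulo `I` -/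
theorem pairs (B : Finset R) (I : Ideal R) (hI : I ≠ ⊥) :
    (B.card : ℝ) ^ 2 / (Nm I : ℝ) - B.card
      ≤ ∑ x ∈ B, ∑ y ∈ B, (if x ≠ y ∧ x - y ∈ I then (1 : ℝ) else 0) := by
  have hfin := Ring.HasFiniteQuotients.finiteQuotient hI
  let _ : Fintype (R ⧸ I) := Fintype.ofFinite _
  have hNm : (Nm I : ℝ) = ((Finset.univ : Finset (R ⧸ I)).card : ℝ) := by
    unfold Nm
    rw [Nat.card_eq_fintype_card, Finset.card_univ]
  have hNpos : 0 < (Nm I : ℝ) := by exact_mod_cast Nm_pos hI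
  set f : R ⧸ I → ℝ := fun s => ((B.filter fun x => Ideal.Quotient.mk I x = s).card : ℝ) with hf
  have h1 : ∑ s, f s = B.card := by
    have h2 := Finset.card_eq_sum_card_fiberwise (s := B) (t := (Finset.univ : Finset (R ⧸ I)))
      (f := fun x => Ideal.Quotient.mk I x) (fun _ _ => Finset.mem_coe.mpr (Finset.mem_univ _))
    rw [h2]
    push_cast
    rfl
  have h3 : ∑ x ∈ B, ∑ y ∈ B, (if x - y ∈ I then (1 : ℝ) else 0) = ∑ s, f s ^ 2 := by
    have h4 : ∀ x ∈ B, ∑ y ∈ B, (if x - y ∈ I then (1 : ℝ) else 0)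
        = f (Ideal.Quotient.mk I x) := by
      intro x _
      rw [hf, ← Finset.sum_filter, Finset.sum_const, nsmul_eq_mul, mul_one]
      congr 2
      ext y
      rw [Finset.mem_filter, Finset.mem_filter]
      refine and_congr_right fun _ => ?_
      rw [← Ideal.Quotient.eq]
      exact ⟨fun h => h.symm, fun h => h.symm⟩
    rw [Finset.sum_congr rfl h4]
    rw [← Finset.sum_fiberwise B (fun x => Ideal.Quotient.mk I x)
      (fun x => f (Ideal.Quotient.mk I x))]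
    refine Finset.sum_congr rfl fun s _ => ?_
    have h5 : ∀ x ∈ B.filter (fun x => Ideal.Quotient.mk I x = s),
        f (Ideal.Quotient.mk I x) = f s := by
      intro x hx
      rw [(Finset.mem_filter.mp hx).2]
    rw [Finset.sum_congr rfl h5, Finset.sum_const, nsmul_eq_mul, sq]
  have h6 : (B.card : ℝ) ^ 2 / (Nm I : ℝ) ≤ ∑ s, f s ^ 2 := by
    rw [div_le_iff₀ hNpos, hNm, ← h1]
    have := sq_sum_le_card_mul_sum_sq (s := (Finset.univ : Finset (R ⧸ I))) (f := f)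
    linarith
  have h7 : ∑ x ∈ B, ∑ y ∈ B, (if x - y ∈ I then (1 : ℝ) else 0)
      ≤ ∑ x ∈ B, ∑ y ∈ B, (if x ≠ y ∧ x - y ∈ I then (1 : ℝ) else 0) + B.card := by
    have h8 : ∀ x ∈ B, ∑ y ∈ B, (if x - y ∈ I then (1 : ℝ) else 0)
        ≤ ∑ y ∈ B, (if x ≠ y ∧ x - y ∈ I then (1 : ℝ) else 0) + 1 := by
      intro x hx
      have h9 : ∑ y ∈ B, (if y = x then (1 : ℝ) else 0) = 1 := by
        rw [Finset.sum_ite_eq', if_pos hx]
      refine le_trans ?_ (le_of_eq (congrArg (fun t => ∑ y ∈ B,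
        (if x ≠ y ∧ x - y ∈ I then (1 : ℝ) else 0) + t) h9))
      rw [← Finset.sum_add_distrib]
      refine Finset.sum_le_sum fun y _ => ?_
      by_cases hxy : y = x
      · rw [if_pos hxy]
        split_ifs <;> norm_num
      · rw [if_neg hxy, add_zero]
        by_cases hI' : x - y ∈ I
        · rw [if_pos hI', if_pos ⟨fun h => hxy h.symm, hI'⟩]
        · rw [if_neg hI']
          split_ifs <;> norm_num
    calc ∑ x ∈ B, ∑ y ∈ B, (if x - y ∈ I then (1 : ℝ) else 0)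
        ≤ ∑ x ∈ B, (∑ y ∈ B, (if x ≠ y ∧ x - y ∈ I then (1 : ℝ) else 0) + 1) :=
          Finset.sum_le_sum h8
      _ = _ := by rw [Finset.sum_add_distrib, Finset.sum_const, nsmul_eq_mul, mul_one]
  linarith

end

end LOW_

theorem stmt_LOW (hFACT : Stmt_FACT) : Stmt_LOW := by
  classical
  intro R _ _ _ _ C₂ hM
  obtain ⟨hL0, _, _, hsum⟩ := hFACT R
  refine ⟨2 * C₂, ?_⟩
  intro P hP0 hP B hB
  have hn1 : 1 ≤ B.card := Finset.card_pos.mpr hB
  set n := B.card with hn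
  set X := max n ((B ×ˢ B).sup fun z => nrm (z.1 - z.2)) with hX
  have hnX : n ≤ X := le_max_left _ _
  have hnrm : ∀ x ∈ B, ∀ y ∈ B, nrm (x - y) ≤ X := by
    intro x hx y hy
    refine le_trans ?_ (le_max_right _ _)
    exact Finset.le_sup (f := fun z : R × R => nrm (z.1 - z.2)) (b := (x, y))
      (Finset.mem_product.mpr ⟨hx, hy⟩)
  have hids : ids R n ⊆ ids R X := by
    intro I hI
    rw [mem_ids] at hI ⊢
    exact ⟨hI.1, hI.2.trans hnX⟩
  have hpt : ∀ x ∈ B, ∀ y ∈ B, ∑ I ∈ ids R n, Lam I * (if x ≠ y ∧ x - y ∈ I then (1 : ℝ) else 0)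
      ≤ P.ln (x - y) := by
    intro x hx y hy
    by_cases hxy : x = y
    · subst hxy
      rw [sub_self, hP0]
      refine le_of_eq (Finset.sum_eq_zero fun I _ => ?_)
      rw [if_neg (fun h => h.1 rfl), mul_zero]
    · have h0 : x - y ≠ 0 := sub_ne_zero.mpr hxy
      rw [hP _ h0, hsum (x - y) X h0 (hnrm x hx y hy)]
      have h1 : ∑ I ∈ ids R n, Lam I * (if x ≠ y ∧ x - y ∈ I then (1 : ℝ) else 0)
          = ∑ I ∈ (ids R n).filter (fun I => x - y ∈ I), Lam I := by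
        rw [Finset.sum_filter]
        refine Finset.sum_congr rfl fun I _ => ?_
        by_cases hI : x - y ∈ I
        · rw [if_pos ⟨hxy, hI⟩, if_pos hI, mul_one]
        · rw [if_neg (fun h => hI h.2), if_neg hI, mul_zero]
      rw [h1]
      exact Finset.sum_le_sum_of_subset_of_nonneg
        (Finset.filter_subset_filter _ hids) (fun I _ _ => hL0 I)
  have hEn : ∑ I ∈ ids R n, Lam I *
      (∑ x ∈ B, ∑ y ∈ B, (if x ≠ y ∧ x - y ∈ I then (1 : ℝ) else 0)) ≤ P.En B := by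
    have h1 : ∑ I ∈ ids R n, Lam I *
        (∑ x ∈ B, ∑ y ∈ B, (if x ≠ y ∧ x - y ∈ I then (1 : ℝ) else 0))
        = ∑ x ∈ B, ∑ y ∈ B, ∑ I ∈ ids R n,
          Lam I * (if x ≠ y ∧ x - y ∈ I then (1 : ℝ) else 0) := by
      simp only [Finset.mul_sum]
      rw [Finset.sum_comm]
      refine Finset.sum_congr rfl fun x _ => ?_
      rw [Finset.sum_comm]
    rw [h1]
    unfold Data.En
    exact Finset.sum_le_sum fun x hx => Finset.sum_le_sum fun y hy => hpt x hx y hy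
  refine le_trans ?_ hEn
  have h2 : ∑ I ∈ ids R n, Lam I * ((n : ℝ) ^ 2 / (Nm I : ℝ) - n)
      ≤ ∑ I ∈ ids R n, Lam I *
      (∑ x ∈ B, ∑ y ∈ B, (if x ≠ y ∧ x - y ∈ I then (1 : ℝ) else 0)) := by
    refine Finset.sum_le_sum fun I hI => ?_
    exact mul_le_mul_of_nonneg_left (LOW_.pairs B I (mem_ids.mp hI).1) (hL0 I)
  refine le_trans ?_ h2
  have h3 : ∑ I ∈ ids R n, Lam I * ((n : ℝ) ^ 2 / (Nm I : ℝ) - n)
      = (n : ℝ) ^ 2 * ∑ I ∈ ids R n, Lam I / (Nm I : ℝ) - n * ∑ I ∈ ids R n, Lam I := by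
    rw [Finset.mul_sum, Finset.mul_sum, ← Finset.sum_sub_distrib]
    refine Finset.sum_congr rfl fun I _ => ?_
    ring
  rw [h3]
  have h4 := (abs_le.mp (hM.mer n hn1)).1
  have h5 := hM.psi n
  have h6 : (n : ℝ) ^ 2 * (Real.log n - C₂) ≤ (n : ℝ) ^ 2 * ∑ I ∈ ids R n, Lam I / (Nm I : ℝ) :=
    mul_le_mul_of_nonneg_left (by linarith) (sq_nonneg _)
  have h7 : (n : ℝ) * ∑ I ∈ ids R n, Lam I ≤ n * (C₂ * n) :=
    mul_le_mul_of_nonneg_left h5 (Nat.cast_nonneg n)
  have h8 : (n : ℝ) ^ 2 * (Real.log n - 2 * C₂)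
      = (n : ℝ) ^ 2 * (Real.log n - C₂) - n * (C₂ * n) := by ring
  rw [h8]
  linarith

end Pool.NS
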