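import Pool.Agent.Work.MP_b29d7f_ns.Interface3

/-!
# Block QORD: the field of rational numbers
-/

set_option autoImplicit false

open Finset Filter Topology MeasureTheory NumberField IsDedekindDomain

namespace Pool.NS

open Pool.Agent.Work.MP_b29d7f_nt.Ded

namespace QORD_

theorem int_surj (K : Type) [Field K] [NumberField K] (h1 : Module.finrank ℚ K = 1) (x : 𝓞 K) :
    ∃ z : ℤ, (z : 𝓞 K) = x := by
  obtain ⟨q, hq⟩ := (Algebra.finrank_eq_one_iff_bijective_algebraMap.mp h1).2 (x : K)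
  have hx : IsIntegral ℤ (x : K) := x.2
  rw [← hq] at hx
  have hq' : IsIntegral ℤ q :=
    (isIntegral_algebraMap_iff (algebraMap ℚ K).injective).mp hx
  obtain ⟨z, hz⟩ := IsIntegrallyClosed.isIntegral_iff.mp hq'
  refine ⟨z, ?_⟩
  apply RingOfIntegers.ext
  rw [← hq, ← hz]
  simp

theorem quot_surj (K : Type) [Field K] [NumberField K] (g : 𝓞 K) (R : Type) [CommRing R]
    [Algebra (𝓞 K) R] (hloc : IsLocalization.Away g R) (h1 : Module.finrank ℚ K = 1)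
    (J : Ideal R) [Finite (R ⧸ J)] (s : R) : ∃ z : ℤ, s - (z : R) ∈ J := by
  obtain ⟨n, a, ha⟩ := IsLocalization.Away.surj g s
  obtain ⟨z, hz⟩ := int_surj K h1 a
  obtain ⟨t, ht⟩ := int_surj K h1 g
  have hu : IsUnit (algebraMap (𝓞 K) R g) := IsLocalization.Away.algebraMap_isUnit g
  have hu2 : IsUnit (Ideal.Quotient.mk J (algebraMap (𝓞 K) R g)) := hu.map _
  obtain ⟨u, hu⟩ := hu2
  have hfin : Finite (R ⧸ J)ˣ := inferInstance
  have hpow : u ^ Nat.card (R ⧸ J)ˣ = 1 := pow_card_eq_one'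
  have hcard : 1 ≤ Nat.card (R ⧸ J)ˣ := Nat.card_pos
  obtain ⟨m, hm⟩ := Nat.exists_eq_add_of_le hcard
  have hgt : Ideal.Quotient.mk J (algebraMap (𝓞 K) R g) = ((t : ℤ) : R ⧸ J) := by
    rw [← ht]; simp
  have hum : ((t : ℤ) : R ⧸ J) * ((t : ℤ) : R ⧸ J) ^ m = 1 := by
    have h2 : ((u ^ Nat.card (R ⧸ J)ˣ : (R ⧸ J)ˣ) : R ⧸ J) = 1 := by rw [hpow]; rfl
    rw [hm, pow_add, pow_one, Units.val_mul, Units.val_pow_eq_pow_val, hu, hgt] at h2
    exact h2
  refine ⟨z * (t ^ m) ^ n, ?_⟩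
  rw [← Ideal.Quotient.eq]
  have h3 : Ideal.Quotient.mk J s * ((t : ℤ) : R ⧸ J) ^ n = ((z : ℤ) : R ⧸ J) := by
    rw [← hgt, ← map_pow, ← map_mul, ha, ← hz]
    simp
  have h4 : ((t : ℤ) : R ⧸ J) ^ n * (((t : ℤ) : R ⧸ J) ^ m) ^ n = 1 := by
    rw [← mul_pow, hum, one_pow]
  calc Ideal.Quotient.mk J s = Ideal.Quotient.mk J s *
        (((t : ℤ) : R ⧸ J) ^ n * (((t : ℤ) : R ⧸ J) ^ m) ^ n) := by rw [h4, mul_one]
    _ = ((z : ℤ) : R ⧸ J) * (((t : ℤ) : R ⧸ J) ^ m) ^ n := by rw [← mul_assoc, h3]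
    _ = Ideal.Quotient.mk J ((z * (t ^ m) ^ n : ℤ) : R) := by
      push_cast
      simp

end QORD_

theorem stmt_QORD (hINST : Stmt_INST) : Stmt_QORD := by
  classical
  intro K _ _ g R _ _ _ hS h1
  obtain ⟨i1, i2, i3, i4, i5⟩ := hINST K g R
  have hloc := hS.away
  refine ⟨fun k => (k : R), fun p hp h0 => ?_⟩
  have hcz : ∀ k l : ℕ, (k : R) = (l : R) → k = l := by
    intro k l hkl
    have h2 := congrArg (algebraMap R K) hkl
    rw [map_natCast, map_natCast] at h2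
    exact_mod_cast h2
  have hne : ∀ i : ℕ, p ^ i ≠ ⊥ := fun i => pow_ne_zero i h0
  have hfin : ∀ i : ℕ, Finite (R ⧸ p ^ i) := fun i =>
    Ring.HasFiniteQuotients.finiteQuotient (hne i)
  have hchar : ∀ i : ℕ, 0 < ringChar (R ⧸ p ^ i) := by
    intro i
    have := hfin i
    exact Nat.pos_of_ne_zero (CharP.char_ne_zero_of_finite (R ⧸ p ^ i) _)
  have hdvd : ∀ (i : ℕ) (z : ℤ), (z : R) ∈ p ^ i ↔ (ringChar (R ⧸ p ^ i) : ℤ) ∣ z := by
    intro i z
    rw [← CharP.intCast_eq_zero_iff (R ⧸ p ^ i), ← Ideal.Quotient.eq_zero_iff_mem]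
    simp
  have hcnt : ∀ (i k v : ℕ), cnt p (fun k => (k : R)) k i (v : R)
      = k / ringChar (R ⧸ p ^ i) + if v % ringChar (R ⧸ p ^ i) < k % ringChar (R ⧸ p ^ i)
        then 1 else 0 := by
    intro i k v
    rw [← Nat.count_modEq_card k (hchar i) v, Nat.count_eq_card_filter_range]
    unfold cnt
    congr 1
    ext j
    rw [Finset.mem_filter, Finset.mem_filter]
    refine and_congr_right fun _ => ?_
    have h2 : ((v : R) - (j : R)) = (((v : ℤ) - (j : ℤ) : ℤ) : R) := by push_cast; rfl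
    rw [h2, hdvd, Nat.modEq_iff_dvd]
  refine isPOrdering_of_balanced hp h0 (fun k l hkl => hcz k l hkl)
    (fun i => ringChar (R ⧸ p ^ i)) ?_ ?_
  · intro i k s
    have := hfin i
    obtain ⟨z, hz⟩ := QORD_.quot_surj K g R hloc h1 (p ^ i) s
    have hz2 : s - (((z % (ringChar (R ⧸ p ^ i) : ℤ)).toNat : ℕ) : R) ∈ p ^ i := by
      have h3 : 0 ≤ z % (ringChar (R ⧸ p ^ i) : ℤ) :=
        Int.emod_nonneg _ (by have := hchar i; omega)
      have h4 : (((z % (ringChar (R ⧸ p ^ i) : ℤ)).toNat : ℕ) : R)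
          = ((z % (ringChar (R ⧸ p ^ i) : ℤ) : ℤ) : R) := by
        rw [← Int.cast_natCast, Int.toNat_of_nonneg h3]
      rw [h4]
      have h5 : s - ((z % (ringChar (R ⧸ p ^ i) : ℤ) : ℤ) : R)
          = (s - (z : R)) + ((z - z % (ringChar (R ⧸ p ^ i) : ℤ) : ℤ) : R) := by
        push_cast; ring
      rw [h5]
      refine Ideal.add_mem _ hz ((hdvd i _).mpr ?_)
      exact Int.dvd_self_sub_emod
    rw [cnt_congr hz2, hcnt]
    exact Nat.le_add_right _ _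
  · intro i k
    rw [hcnt, if_neg (lt_irrefl _)]
    exact le_rfl

end Pool.NS
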